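import Mathlib

set_option autoImplicit false

/-!
# The maximal rank of tensors of nearly full formats

Let `P` be the product of all dimensions but the last one, `N` the last dimension.  The slice bound
`maxRank ≤ P` is attained if and only if `P ≤ N`; if `N < P` then the maximal rank is at most
`P - 1`, and it is exactly `P - 1` for `N = P - 1` and (two of the other factors being of dimension
at least two) for `N = P - 2`.  This holds for every order and over every infinite field.
-/

namespace Pool.Agent.Results.MP_098a67_ag.NearlyFullFormats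

open Finset

/-- Tensors of format `n 0 × ⋯ × n (d - 1)` over `K`, given by their coordinates. -/
abbrev Tensor (K : Type) {d : ℕ} (n : Fin d → ℕ) : Type := (∀ i, Fin (n i)) → K

/-- The tensor `v 0 ⊗ ⋯ ⊗ v (d - 1)`. -/
def tprod {K : Type} [Field K] {d : ℕ} {n : Fin d → ℕ} (v : ∀ i, Fin (n i) → K) : Tensor K n :=
  fun a => ∏ i, v i (a i)

/-- Tensors of rank one. -/
def IsRankOne {K : Type} [Field K] {d : ℕ} {n : Fin d → ℕ} (T : Tensor K n) : Prop :=
  T ≠ 0 ∧ ∃ v, T = tprod v

/-- `T` is a sum of `r` tensors of rank one. -/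
def IsSum {K : Type} [Field K] {d : ℕ} {n : Fin d → ℕ} (T : Tensor K n) (r : ℕ) : Prop :=
  ∃ S : Fin r → Tensor K n, (∀ k, IsRankOne (S k)) ∧ T = ∑ k, S k

/-- The rank: the least number of tensors of rank one with sum `T`. -/
noncomputable def rk {K : Type} [Field K] {d : ℕ} {n : Fin d → ℕ} (T : Tensor K n) : ℕ :=
  sInf {r | IsSum T r}

/-- The maximal rank of the tensors of format `n`. -/
noncomputable def maxRank (K : Type) [Field K] {d : ℕ} (n : Fin d → ℕ) : ℕ :=
  sSup (Set.range fun T : Tensor K n => rk T)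

theorem isSum_of_sum {K : Type} [Field K] {d : ℕ} {n : Fin d → ℕ} {α : Type} (s : Finset α)
    (S : α → Tensor K n) (hS : ∀ k ∈ s, ∃ v, S k = tprod v) :
    ∃ r ≤ s.card, IsSum (∑ k ∈ s, S k) r := by
  classical
  refine ⟨(s.filter fun k => S k ≠ 0).card, card_filter_le _ _, ?_⟩
  refine ⟨fun k => S ((s.filter fun k => S k ≠ 0).equivFin.symm k), ?_, ?_⟩
  · intro k
    have h := ((s.filter fun k => S k ≠ 0).equivFin.symm k).2
    rw [mem_filter] at h
    exact ⟨h.2, hS _ h.1⟩
  · rw [Equiv.sum_comp (s.filter fun k => S k ≠ 0).equivFin.symm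
      (fun x : (s.filter fun k => S k ≠ 0) => S x)]
    rw [Finset.sum_coe_sort (s.filter fun k => S k ≠ 0) S]
    exact (Finset.sum_filter_ne_zero s).symm

section key

variable {K : Type} [Field K] {d : ℕ} {n : Fin d → ℕ}

theorem exists_t [Infinite K] (f : Tensor K n →ₗ[K] K) (hf : f ≠ 0) :
    ∃ t : (Σ i, Fin (n i)) → K, (∀ x y, x ≠ y → t x ≠ t y) ∧
      ∀ a : ∀ i, Fin (n i), f (tprod fun i x => t ⟨i, a i⟩ ^ (x : ℕ)) ≠ 0 := by
  classical
  obtain ⟨ex, hexd⟩ : ∃ ex : (∀ i, Fin (n i)) → (Fin d →₀ ℕ),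
      ex = fun a => Finsupp.equivFunOnFinite.symm fun i => (a i : ℕ) := ⟨_, rfl⟩
  have hex : Function.Injective ex := by
    intro a b h
    rw [hexd] at h
    have h2 := Finsupp.equivFunOnFinite.symm.injective h
    funext i
    exact Fin.ext (congrFun h2 i)
  obtain ⟨F0, hF⟩ : ∃ F0 : MvPolynomial (Fin d) K,
      F0 = ∑ a, MvPolynomial.monomial (ex a) (f (Pi.single a 1)) := ⟨_, rfl⟩
  have hF0 : F0 ≠ 0 := by
    intro h0
    apply hf
    apply (Pi.basisFun K (∀ i, Fin (n i))).ext
    intro a
    rw [Pi.basisFun_apply, LinearMap.zero_apply]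
    have h1 := congrArg (MvPolynomial.coeff (ex a)) h0
    rw [hF, MvPolynomial.coeff_sum, MvPolynomial.coeff_zero] at h1
    rw [Finset.sum_eq_single a] at h1
    · rwa [MvPolynomial.coeff_monomial, if_pos rfl] at h1
    · intro b _ hb
      rw [MvPolynomial.coeff_monomial, if_neg fun h => hb (hex h)]
    · intro h
      exact absurd (mem_univ a) h
  have hev : ∀ t : Fin d → K,
      MvPolynomial.eval t F0 = f (tprod fun i x => t i ^ (x : ℕ)) := by
    intro t
    have h1 : (tprod fun i (x : Fin (n i)) => t i ^ (x : ℕ)) =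
        ∑ a : (∀ i, Fin (n i)), (∏ i, t i ^ (a i : ℕ)) • (Pi.single a (1 : K) : Tensor K n) := by
      funext b
      rw [Finset.sum_apply, Finset.sum_eq_single b]
      · simp [tprod]
      · intro c _ hc
        simp [hc.symm]
      · intro h
        exact absurd (mem_univ b) h
    rw [h1, map_sum, hF, map_sum]
    apply Finset.sum_congr rfl
    intro a _
    rw [MvPolynomial.eval_monomial, map_smul, smul_eq_mul, mul_comm]
    congr 1
    rw [Finsupp.prod_fintype _ _ (by simp), hexd]
    rfl
  obtain ⟨Q, hQd⟩ : ∃ Q : MvPolynomial (Σ i, Fin (n i)) K, Q =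
    (∏ a : (∀ i, Fin (n i)),
      MvPolynomial.rename (fun i => (⟨i, a i⟩ : Σ i, Fin (n i))) F0) *
    ∏ p ∈ (Finset.univ : Finset (Σ i, Fin (n i))).offDiag,
      (MvPolynomial.X p.1 - MvPolynomial.X p.2) := ⟨_, rfl⟩
  have hQ : Q ≠ 0 := by
    rw [hQd]
    apply mul_ne_zero
    · rw [Finset.prod_ne_zero_iff]
      intro a _ h
      apply hF0
      have hinj : Function.Injective (fun i => (⟨i, a i⟩ : Σ i, Fin (n i))) := by
        intro i j hij
        exact congrArg Sigma.fst hij
      apply MvPolynomial.rename_injective _ hinj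
      rw [h, map_zero]
    · rw [Finset.prod_ne_zero_iff]
      intro p hp h
      rw [sub_eq_zero] at h
      exact (Finset.mem_offDiag.1 hp).2.2 (MvPolynomial.X_injective h)
  obtain ⟨t, ht⟩ : ∃ t, MvPolynomial.eval t Q ≠ 0 := by
    by_contra hcon
    push Not at hcon
    exact hQ (MvPolynomial.funext fun x => by rw [hcon x, map_zero])
  rw [hQd, map_mul, map_prod, map_prod] at ht
  have ht1 := left_ne_zero_of_mul ht
  have ht2 := right_ne_zero_of_mul ht
  rw [Finset.prod_ne_zero_iff] at ht1 ht2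
  refine ⟨t, ?_, ?_⟩
  · intro x y hxy h
    apply ht2 (x, y) (Finset.mem_offDiag.2 ⟨mem_univ _, mem_univ _, hxy⟩)
    simp [h]
  · intro a
    have := ht1 a (mem_univ _)
    rw [MvPolynomial.eval_rename, hev] at this
    exact this

theorem span_top (t : (Σ i, Fin (n i)) → K) (ht : ∀ x y, x ≠ y → t x ≠ t y) :
    Submodule.span K (Set.range fun a : (∀ i, Fin (n i)) =>
      (tprod fun i x => t ⟨i, a i⟩ ^ (x : ℕ) : Tensor K n)) = ⊤ := by
  classical
  rw [eq_top_iff, ← (Pi.basisFun K (∀ i, Fin (n i))).span_eq, Submodule.span_le]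
  rintro _ ⟨c, rfl⟩
  rw [Pi.basisFun_apply]
  obtain ⟨V, hVd⟩ : ∃ V : ∀ i, Matrix (Fin (n i)) (Fin (n i)) K,
      V = fun i => Matrix.vandermonde fun j => t ⟨i, j⟩ := ⟨_, rfl⟩
  have hV : ∀ i, (V i)⁻¹ * V i = 1 := by
    intro i
    apply Matrix.nonsing_inv_mul
    rw [isUnit_iff_ne_zero, hVd, Matrix.det_vandermonde_ne_zero_iff]
    intro j j' h
    by_contra hne
    exact ht ⟨i, j⟩ ⟨i, j'⟩ (by intro h'; apply hne; simpa using h') h
  have h1 : (Pi.single c 1 : Tensor K n) = ∑ a : (∀ i, Fin (n i)),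
      (∏ i, (V i)⁻¹ (c i) (a i)) • (tprod fun i x => t ⟨i, a i⟩ ^ (x : ℕ) : Tensor K n) := by
    funext x
    rw [Finset.sum_apply]
    have h2 := Finset.prod_univ_sum (fun i => (Finset.univ : Finset (Fin (n i))))
      (fun i j => (V i)⁻¹ (c i) j * t ⟨i, j⟩ ^ (x i : ℕ))
    rw [Fintype.piFinset_univ] at h2
    have h3 : ∀ i, ∑ j, (V i)⁻¹ (c i) j * t ⟨i, j⟩ ^ (x i : ℕ) =
        (1 : Matrix (Fin (n i)) (Fin (n i)) K) (c i) (x i) := by
      intro i
      rw [← hV i, Matrix.mul_apply]
      apply Finset.sum_congr rfl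
      intro j _
      congr 1
      rw [hVd]
      rfl
    have h4 : ∑ a : (∀ i, Fin (n i)), ((∏ i, (V i)⁻¹ (c i) (a i)) •
        (tprod fun i x => t ⟨i, a i⟩ ^ (x : ℕ) : Tensor K n)) x =
        ∑ a : (∀ i, Fin (n i)), ∏ i, ((V i)⁻¹ (c i) (a i) * t ⟨i, a i⟩ ^ (x i : ℕ)) := by
      apply Finset.sum_congr rfl
      intro a _
      rw [Finset.prod_mul_distrib]
      rfl
    rw [h4, ← h2, Finset.prod_congr rfl fun i _ => h3 i]
    by_cases hx : x = c
    · subst hx
      simp
    · rw [Pi.single_eq_of_ne hx]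
      obtain ⟨i, hi⟩ := Function.ne_iff.1 hx
      symm
      apply Finset.prod_eq_zero (mem_univ i)
      rw [Matrix.one_apply_ne (Ne.symm hi)]
  rw [h1]
  apply Submodule.sum_mem
  intro a _
  exact Submodule.smul_mem _ _ (Submodule.subset_span ⟨a, rfl⟩)

theorem finrank_tensor : Module.finrank K (Tensor K n) = ∏ i, n i := by
  rw [Module.finrank_fintype_fun_eq_card, Fintype.card_pi]
  simp

/-- The kernel of a nonzero functional is spanned by decomposable tensors. -/
theorem ker_le [Infinite K] (f : Tensor K n →ₗ[K] K) (hf : f ≠ 0) :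
    ∃ s : Finset (Tensor K n), s.card + 1 ≤ ∏ i, n i ∧ (∀ D ∈ s, ∃ v, D = tprod v) ∧
      LinearMap.ker f ≤ Submodule.span K (s : Set (Tensor K n)) := by
  classical
  obtain ⟨t, ht, hft⟩ := exists_t f hf
  have htop := span_top t ht
  obtain ⟨e, he⟩ : ∃ e : (∀ i, Fin (n i)) → Tensor K n,
    e = fun a => tprod fun i x => t ⟨i, a i⟩ ^ (x : ℕ) := ⟨_, rfl⟩
  have hfe : ∀ a, f (e a) ≠ 0 := fun a => by rw [he]; exact hft a
  rw [← he] at htop
  obtain ⟨g, hg⟩ : ∃ g : (∀ i, Fin (n i)) → Tensor K n, g = fun a => (f (e a))⁻¹ • e a :=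
    ⟨_, rfl⟩
  have hfg : ∀ a, f (g a) = 1 := by
    intro a
    rw [hg, map_smul, smul_eq_mul, inv_mul_cancel₀ (hfe a)]
  obtain ⟨D, hD⟩ : ∃ D : Set (Tensor K n), D = {w | (∃ v, w = tprod v) ∧ f w = 0} := ⟨_, rfl⟩
  have hnb : ∀ a i j, g a - g (Function.update a i j) ∈ D := by
    intro a i j
    rw [hD]
    refine ⟨⟨Function.update (fun k (x : Fin (n k)) => t ⟨k, a k⟩ ^ (x : ℕ)) i
      (fun x => (f (e a))⁻¹ * t ⟨i, a i⟩ ^ (x : ℕ) -
        (f (e (Function.update a i j)))⁻¹ * t ⟨i, j⟩ ^ (x : ℕ)), ?_⟩, ?_⟩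
    · funext y
      have h1 : e a y = t ⟨i, a i⟩ ^ (y i : ℕ) *
          ∏ k ∈ univ.erase i, t ⟨k, a k⟩ ^ (y k : ℕ) := by
        rw [he, Finset.mul_prod_erase univ (fun k => t ⟨k, a k⟩ ^ (y k : ℕ)) (mem_univ i)]
        rfl
      have h2 : e (Function.update a i j) y = t ⟨i, j⟩ ^ (y i : ℕ) *
          ∏ k ∈ univ.erase i, t ⟨k, a k⟩ ^ (y k : ℕ) := by
        have h3 : e (Function.update a i j) y =
          ∏ k, t ⟨k, Function.update a i j k⟩ ^ (y k : ℕ) := by rw [he]; rfl
        rw [h3, ← Finset.mul_prod_erase univ _ (mem_univ i), Function.update_self]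
        congr 1
        apply Finset.prod_congr rfl
        intro k hk
        rw [Function.update_of_ne (Finset.ne_of_mem_erase hk)]
      have h4 : tprod (Function.update (fun k (x : Fin (n k)) => t ⟨k, a k⟩ ^ (x : ℕ)) i
          (fun x => (f (e a))⁻¹ * t ⟨i, a i⟩ ^ (x : ℕ) -
            (f (e (Function.update a i j)))⁻¹ * t ⟨i, j⟩ ^ (x : ℕ))) y =
          ((f (e a))⁻¹ * t ⟨i, a i⟩ ^ (y i : ℕ) -
            (f (e (Function.update a i j)))⁻¹ * t ⟨i, j⟩ ^ (y i : ℕ)) *
          ∏ k ∈ univ.erase i, t ⟨k, a k⟩ ^ (y k : ℕ) := by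
        unfold tprod
        rw [← Finset.mul_prod_erase univ _ (mem_univ i), Function.update_self]
        congr 1
        apply Finset.prod_congr rfl
        intro k hk
        rw [Function.update_of_ne (Finset.ne_of_mem_erase hk)]
      rw [h4, hg]
      simp only [Pi.sub_apply, Pi.smul_apply, smul_eq_mul]
      rw [h1, h2]
      ring
    · rw [map_sub, hfg, hfg, sub_self]
  have hall : ∀ a b, g a - g b ∈ Submodule.span K D := by
    intro a b
    have h1 : ∀ s : Finset (Fin d), g a - g (s.piecewise b a) ∈ Submodule.span K D := by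
      intro s
      induction s using Finset.induction_on with
      | empty =>
        rw [Finset.piecewise_empty, sub_self]
        exact Submodule.zero_mem _
      | insert j s hj ih =>
        rw [Finset.piecewise_insert]
        have h2 := Submodule.subset_span (R := K) (hnb (s.piecewise b a) j (b j))
        have h3 := Submodule.add_mem _ ih h2
        rwa [sub_add_sub_cancel] at h3
    have := h1 univ
    rwa [Finset.piecewise_univ] at this
  have hker : LinearMap.ker f ≤ Submodule.span K D := by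
    intro x hx
    rw [LinearMap.mem_ker] at hx
    have hxt : x ∈ Submodule.span K (Set.range e) := by rw [htop]; trivial
    obtain ⟨c, hc⟩ := (Submodule.mem_span_range_iff_exists_fun K).1 hxt
    rcases isEmpty_or_nonempty (∀ i, Fin (n i)) with hemp | ⟨⟨a0⟩⟩
    · have : x = 0 := Subsingleton.elim _ _
      rw [this]
      exact Submodule.zero_mem _
    · have h1 : ∀ a, c a • e a = (c a * f (e a)) • g a := by
        intro a
        rw [hg, smul_smul, mul_assoc, mul_inv_cancel₀ (hfe a), mul_one]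
      have h2 : ∑ a, c a * f (e a) = 0 := by
        rw [← hx, ← hc, map_sum]
        apply Finset.sum_congr rfl
        intro a _
        rw [map_smul, smul_eq_mul]
      have h3 : x = ∑ a, (c a * f (e a)) • (g a - g a0) := by
        simp only [smul_sub, Finset.sum_sub_distrib]
        rw [← Finset.sum_smul, h2, zero_smul, sub_zero, ← hc]
        exact Finset.sum_congr rfl fun a _ => h1 a
      rw [h3]
      exact Submodule.sum_mem _ fun a _ => Submodule.smul_mem _ _ (hall a a0)
  obtain ⟨b, hb, hspan, hli⟩ := exists_linearIndependent K D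
  have hfin : b.Finite := hli.setFinite
  have : Fintype b := hfin.fintype
  refine ⟨b.toFinset, ?_, ?_, ?_⟩
  · have h1 := finrank_span_set_eq_card hli
    have h2 : Submodule.span K b ≤ LinearMap.ker f := by
      rw [Submodule.span_le]
      intro w hw
      have := hb hw
      rw [hD] at this
      exact this.2
    have h3 := Submodule.finrank_mono h2
    have h4 := Module.Dual.finrank_ker_add_one_of_ne_zero (f := f) hf
    rw [finrank_tensor] at h4
    omega
  · intro w hw
    have := hb (Set.mem_toFinset.1 hw)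
    rw [hD] at this
    exact this.1
  · rw [Set.coe_toFinset, hspan]
    exact hker

end key

section slices

variable {K : Type} [Field K] {d : ℕ} {n : Fin (d + 1) → ℕ}

/-- The slices of a tensor of order `d + 1` along the last factor. -/
def slice (T : Tensor K n) (j : Fin (n (Fin.last d))) : Tensor K (fun i : Fin d => n i.castSucc) :=
  fun a => T (Fin.snoc (α := fun i => Fin (n i)) a j)

theorem isSum_of_slices (T : Tensor K n) (s : Finset (Tensor K (fun i : Fin d => n i.castSucc)))
    (hs : ∀ D ∈ s, ∃ v, D = tprod v)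
    (hT : ∀ j, slice T j ∈ Submodule.span K (s : Set (Tensor K (fun i : Fin d => n i.castSucc)))) :
    ∃ r ≤ s.card, IsSum T r := by
  classical
  choose c hc using fun j => Submodule.mem_span_finset.1 (hT j)
  have h1 : T = ∑ D ∈ s, (fun q : (∀ i, Fin (n i)) =>
      D (fun i => q i.castSucc) * c (q (Fin.last d)) D) := by
    funext q
    have h2 := congrFun (hc (q (Fin.last d))).2 (fun i => q i.castSucc)
    have h3 : slice T (q (Fin.last d)) (fun i => q i.castSucc) = T q := by
      unfold slice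
      congr 1
      exact Fin.snoc_init_self q
    rw [← h3, ← h2, Finset.sum_apply, Finset.sum_apply]
    apply Finset.sum_congr rfl
    intro D _
    rw [Pi.smul_apply, smul_eq_mul, mul_comm]
  rw [h1]
  apply isSum_of_sum
  intro D hD
  obtain ⟨v, hv⟩ := hs D hD
  refine ⟨Fin.snoc (α := fun i => Fin (n i) → K) v (fun j => c j D), ?_⟩
  funext q
  rw [hv]
  unfold tprod
  rw [Fin.prod_univ_castSucc, Fin.snoc_last]
  congr 1
  apply Finset.prod_congr rfl
  intro i _
  rw [Fin.snoc_castSucc]

theorem slices_of_isSum (T : Tensor K n) (r : ℕ) (h : IsSum T r) :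
    ∃ D : Fin r → Tensor K (fun i : Fin d => n i.castSucc), (∀ k, ∃ v, D k = tprod v) ∧
      ∀ j, slice T j ∈ Submodule.span K (Set.range D) := by
  classical
  obtain ⟨S, hS, hT⟩ := h
  choose hS0 v hv using hS
  refine ⟨fun k => tprod fun i => v k i.castSucc, fun k => ⟨_, rfl⟩, ?_⟩
  intro j
  have h1 : slice T j = ∑ k, v k (Fin.last d) j •
      (tprod fun i => v k i.castSucc : Tensor K (fun i : Fin d => n i.castSucc)) := by
    funext a
    rw [Finset.sum_apply]
    unfold slice
    rw [hT, Finset.sum_apply]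
    apply Finset.sum_congr rfl
    intro k _
    rw [hv k, Pi.smul_apply, smul_eq_mul, mul_comm]
    unfold tprod
    rw [Fin.prod_univ_castSucc, Fin.snoc_last]
    congr 1
    apply Finset.prod_congr rfl
    intro i _
    rw [Fin.snoc_castSucc]
  rw [h1]
  exact Submodule.sum_mem _ fun k _ => Submodule.smul_mem _ _ (Submodule.subset_span ⟨k, rfl⟩)

/-- A tensor whose slices span a given subspace. -/
theorem exists_tensor (W : Submodule K (Tensor K (fun i : Fin d => n i.castSucc)))
    (hW : Module.finrank K W ≤ n (Fin.last d)) :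
    ∃ T : Tensor K n, W ≤ Submodule.span K (Set.range (slice T)) := by
  classical
  obtain ⟨b, -⟩ : ∃ b : Module.Basis (Fin (Module.finrank K W)) K W, True :=
    ⟨Module.finBasis K W, trivial⟩
  refine ⟨fun q => if h : ((q (Fin.last d) : Fin (n (Fin.last d))) : ℕ) < Module.finrank K W then
    (b ⟨_, h⟩ : Tensor K (fun i : Fin d => n i.castSucc)) (fun i => q i.castSucc) else 0, ?_⟩
  intro w hw
  have h1 : (⟨w, hw⟩ : W) ∈ Submodule.span K (Set.range b) := by rw [b.span_eq]; trivial
  have h2 : w ∈ (Submodule.span K (Set.range b)).map W.subtype := ⟨⟨w, hw⟩, h1, rfl⟩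
  rw [Submodule.map_span] at h2
  refine Submodule.span_mono ?_ h2
  rintro _ ⟨_, ⟨k, rfl⟩, rfl⟩
  refine ⟨⟨k, lt_of_lt_of_le k.2 hW⟩, ?_⟩
  funext a
  unfold slice
  simp only [Fin.snoc_last, Fin.snoc_castSucc]
  rw [dif_pos k.2]
  rfl

theorem rk_spec (T : Tensor K n) (h : ∃ r, IsSum T r) : IsSum T (rk T) :=
  Nat.sInf_mem h

end slices

theorem minor {K : Type} [Field K] {d : ℕ} {n : Fin d → ℕ} (v : ∀ i, Fin (n i) → K)
    (a : ∀ i, Fin (n i)) (p q : Fin d) (hpq : p ≠ q) (x : Fin (n p)) (y : Fin (n q)) :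
    tprod v (Function.update a p x) * tprod v (Function.update a q y) =
      tprod v a * tprod v (Function.update (Function.update a p x) q y) := by
  classical
  unfold tprod
  rw [← Finset.prod_mul_distrib, ← Finset.prod_mul_distrib]
  apply Finset.prod_congr rfl
  intro i _
  by_cases h1 : i = q
  · subst h1
    rw [Function.update_self, Function.update_self, Function.update_of_ne hpq.symm]
  · rw [Function.update_of_ne h1, Function.update_of_ne h1]
    ring

section main

variable {K : Type} [Field K] {d : ℕ} {n : Fin (d + 1) → ℕ}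

/-- Every tensor is a sum of at most `P` tensors of rank one. -/
theorem slice_bound (T : Tensor K n) : ∃ r ≤ ∏ i : Fin d, n i.castSucc, IsSum T r := by
  classical
  obtain ⟨r, hr, h⟩ := isSum_of_slices T
    (univ.image fun a : (∀ i : Fin d, Fin (n i.castSucc)) =>
      (Pi.single a (1 : K) : Tensor K (fun i : Fin d => n i.castSucc))) (by
      intro D hD
      obtain ⟨a, -, rfl⟩ := mem_image.1 hD
      refine ⟨fun i => Pi.single (a i) 1, ?_⟩
      funext b
      unfold tprod
      by_cases hb : b = a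
      · subst hb
        simp
      · rw [Pi.single_eq_of_ne hb]
        obtain ⟨i, hi⟩ := Function.ne_iff.1 hb
        symm
        apply Finset.prod_eq_zero (mem_univ i)
        exact Pi.single_eq_of_ne hi _) (by
      intro j
      have h1 : Submodule.span K ((univ.image fun a : (∀ i : Fin d, Fin (n i.castSucc)) =>
          (Pi.single a (1 : K) : Tensor K (fun i : Fin d => n i.castSucc)) :
          Finset (Tensor K (fun i : Fin d => n i.castSucc))) :
          Set (Tensor K (fun i : Fin d => n i.castSucc))) = ⊤ := by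
        rw [eq_top_iff, ← (Pi.basisFun K (∀ i : Fin d, Fin (n i.castSucc))).span_eq,
          Submodule.span_le]
        rintro _ ⟨c, rfl⟩
        rw [Pi.basisFun_apply]
        apply Submodule.subset_span
        rw [Finset.mem_coe]
        exact mem_image_of_mem _ (mem_univ c)
      rw [h1]
      trivial)
  refine ⟨r, hr.trans (card_image_le.trans ?_), h⟩
  rw [card_univ, Fintype.card_pi]
  simp

theorem rk_le_of_lt [Infinite K] (hN : n (Fin.last d) < ∏ i : Fin d, n i.castSucc)
    (T : Tensor K n) : rk T + 1 ≤ ∏ i : Fin d, n i.castSucc := by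
  classical
  have hlt : Submodule.span K (Set.range (slice T)) < ⊤ := by
    rw [lt_top_iff_ne_top]
    intro htop
    have h1 := finrank_range_le_card (R := K) (slice T)
    have h2 : Module.finrank K (Submodule.span K (Set.range (slice T))) ≤
        Fintype.card (Fin (n (Fin.last d))) := h1
    rw [htop, finrank_top, finrank_tensor, Fintype.card_fin] at h2
    omega
  obtain ⟨f, hf, hker⟩ := Submodule.exists_le_ker_of_lt_top _ hlt
  obtain ⟨s, hs, hdec, hle⟩ := ker_le f hf
  obtain ⟨r, hr, h⟩ := isSum_of_slices T s hdec fun j =>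
    hle (hker (Submodule.subset_span ⟨j, rfl⟩))
  have h3 : rk T ≤ r := Nat.sInf_le h
  omega

theorem exists_rk_ge (W : Submodule K (Tensor K (fun i : Fin d => n i.castSucc)))
    (hW : Module.finrank K W ≤ n (Fin.last d)) :
    ∃ T : Tensor K n, Module.finrank K W ≤ rk T ∧ ∃ D : Fin (rk T) →
      Tensor K (fun i : Fin d => n i.castSucc), (∀ k, ∃ v, D k = tprod v) ∧
      W ≤ Submodule.span K (Set.range D) := by
  obtain ⟨T, hT⟩ := exists_tensor W hW
  obtain ⟨r, -, hr⟩ := slice_bound T
  obtain ⟨D, hD, hDT⟩ := slices_of_isSum T (rk T) (rk_spec T ⟨r, hr⟩)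
  have h1 : W ≤ Submodule.span K (Set.range D) := by
    refine hT.trans (Submodule.span_le.2 ?_)
    rintro _ ⟨j, rfl⟩
    exact hDT j
  refine ⟨T, ?_, D, hD, h1⟩
  have h2 := Submodule.finrank_mono h1
  have h3 := finrank_range_le_card (R := K) D
  have h4 : Module.finrank K (Submodule.span K (Set.range D)) ≤ Fintype.card (Fin (rk T)) := h3
  rw [Fintype.card_fin] at h4
  omega

theorem maxRank_eq (m : ℕ) (h1 : ∀ T : Tensor K n, rk T ≤ m) (h2 : ∃ T : Tensor K n, m ≤ rk T) :
    maxRank K n = m := by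
  obtain ⟨T, hT⟩ := h2
  apply IsGreatest.csSup_eq
  refine ⟨⟨T, le_antisymm (h1 T) hT⟩, ?_⟩
  rintro _ ⟨S, rfl⟩
  exact h1 S

theorem full (hN : ∏ i : Fin d, n i.castSucc ≤ n (Fin.last d)) :
    maxRank K n = ∏ i : Fin d, n i.castSucc := by
  apply maxRank_eq
  · intro T
    obtain ⟨r, hr, h⟩ := slice_bound T
    exact (Nat.sInf_le h).trans hr
  · obtain ⟨T, hT, -⟩ := exists_rk_ge (K := K) (n := n) ⊤ (by
      rw [finrank_top, finrank_tensor]
      exact hN)
    rw [finrank_top, finrank_tensor] at hT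
    exact ⟨T, hT⟩

theorem minus_one [Infinite K] (hN : n (Fin.last d) + 1 = ∏ i : Fin d, n i.castSucc) :
    maxRank K n = n (Fin.last d) := by
  classical
  apply maxRank_eq
  · intro T
    have := rk_le_of_lt (by omega) T
    omega
  · have hpos : ∀ i : Fin d, n i.castSucc ≠ 0 := by
      have h1 : ∏ i : Fin d, n i.castSucc ≠ 0 := by omega
      rw [Finset.prod_ne_zero_iff] at h1
      exact fun i => h1 i (mem_univ i)
    obtain ⟨f, hf⟩ : ∃ f : Tensor K (fun i : Fin d => n i.castSucc) →ₗ[K] K,
      f = LinearMap.proj (fun i : Fin d => (⟨0, Nat.pos_of_ne_zero (hpos i)⟩ :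
        Fin (n i.castSucc))) := ⟨_, rfl⟩
    have hf0 : f ≠ 0 := by
      intro h0
      have h1 := LinearMap.congr_fun h0 (fun _ => 1)
      rw [hf] at h1
      simp at h1
    have h4 := Module.Dual.finrank_ker_add_one_of_ne_zero (f := f) hf0
    rw [finrank_tensor] at h4
    obtain ⟨T, hT, -⟩ := exists_rk_ge (K := K) (n := n) (LinearMap.ker f) (by omega)
    exact ⟨T, by omega⟩

theorem minus_two [Infinite K] (hN : n (Fin.last d) + 2 = ∏ i : Fin d, n i.castSucc)
    (p q : Fin d) (hpq : p ≠ q) (hp : 2 ≤ n p.castSucc) (hq : 2 ≤ n q.castSucc) :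
    maxRank K n = n (Fin.last d) + 1 := by
  classical
  apply maxRank_eq
  · intro T
    have := rk_le_of_lt (by omega) T
    omega
  · have hpos : ∀ i : Fin d, n i.castSucc ≠ 0 := by
      have h1 : ∏ i : Fin d, n i.castSucc ≠ 0 := by omega
      rw [Finset.prod_ne_zero_iff] at h1
      exact fun i => h1 i (mem_univ i)
    obtain ⟨a, ha⟩ : ∃ a : (∀ i : Fin d, Fin (n i.castSucc)),
      a = fun i => ⟨0, Nat.pos_of_ne_zero (hpos i)⟩ := ⟨_, rfl⟩
    obtain ⟨x, hx⟩ : ∃ x : Fin (n p.castSucc), x ≠ a p := by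
      refine ⟨⟨1, by omega⟩, ?_⟩
      rw [ha]
      intro h
      exact absurd (congrArg Fin.val h) (by simp)
    obtain ⟨y, hy⟩ : ∃ y : Fin (n q.castSucc), y ≠ a q := by
      refine ⟨⟨1, by omega⟩, ?_⟩
      rw [ha]
      intro h
      exact absurd (congrArg Fin.val h) (by simp)
    obtain ⟨b, hb⟩ : ∃ b : (∀ i : Fin d, Fin (n i.castSucc)), b = Function.update a p x :=
      ⟨_, rfl⟩
    obtain ⟨c, hc⟩ : ∃ c : (∀ i : Fin d, Fin (n i.castSucc)), c = Function.update a q y :=
      ⟨_, rfl⟩
    have hba : b ≠ a := by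
      intro h
      apply hx
      rw [← h, hb, Function.update_self]
    have hca : c ≠ a := by
      intro h
      apply hy
      rw [← h, hc, Function.update_self]
    have hbc : b ≠ c := by
      intro h
      have h1 := congrFun h p
      rw [hb, hc, Function.update_self, Function.update_of_ne hpq] at h1
      exact hx h1
    obtain ⟨pr, hpr⟩ : ∃ pr : (∀ i : Fin d, Fin (n i.castSucc)) →
        (Tensor K (fun i : Fin d => n i.castSucc) →ₗ[K] K), ∀ e w, pr e w = w e :=
      ⟨fun e => LinearMap.proj e, fun _ _ => rfl⟩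
    obtain ⟨φ, hφ⟩ : ∃ φ : Tensor K (fun i : Fin d => n i.castSucc) →ₗ[K] (K × K),
      φ = (pr a).prod (pr b + pr c) := ⟨_, rfl⟩
    have hφa : ∀ w, φ w = (w a, w b + w c) := by
      intro w
      rw [hφ]
      have h1 : ((pr a).prod (pr b + pr c)) w = (pr a w, pr b w + pr c w) := rfl
      rw [h1, hpr, hpr, hpr]
    have hsurj : LinearMap.range φ = ⊤ := by
      rw [LinearMap.range_eq_top]
      rintro ⟨u, w⟩
      refine ⟨Pi.single a u + Pi.single b w, ?_⟩
      rw [hφa]
      simp [hba, hba.symm, hca, hbc.symm]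
    have hrk := LinearMap.finrank_range_add_finrank_ker φ
    rw [hsurj, finrank_top, Module.finrank_prod, Module.finrank_self, finrank_tensor] at hrk
    obtain ⟨T, hT, D, hD, hWD⟩ := exists_rk_ge (K := K) (n := n) (LinearMap.ker φ) (by omega)
    refine ⟨T, ?_⟩
    by_contra hcon
    have hTr : rk T = n (Fin.last d) := by omega
    have h3 := finrank_range_le_card (R := K) D
    have h4 : Module.finrank K (Submodule.span K (Set.range D)) ≤ Fintype.card (Fin (rk T)) := h3
    rw [Fintype.card_fin] at h4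
    have heq : LinearMap.ker φ = Submodule.span K (Set.range D) :=
      Submodule.eq_of_le_of_finrank_le hWD (by omega)
    have hDc : ∀ w ∈ Submodule.span K (Set.range D), w b = 0 := by
      intro w hw
      have h5 : Submodule.span K (Set.range D) ≤ LinearMap.ker (pr b) := by
        rw [Submodule.span_le]
        rintro _ ⟨k, rfl⟩
        rw [SetLike.mem_coe, LinearMap.mem_ker, hpr]
        obtain ⟨v, hv⟩ := hD k
        have h6 : D k ∈ LinearMap.ker φ := by
          rw [heq]
          exact Submodule.subset_span ⟨k, rfl⟩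
        rw [LinearMap.mem_ker, hφa] at h6
        have h7 : D k a = 0 := congrArg Prod.fst h6
        have h8 : D k b + D k c = 0 := congrArg Prod.snd h6
        have h9 := minor v a p q hpq x y
        rw [← hb, ← hc, ← hv, h7, zero_mul] at h9
        rcases mul_eq_zero.1 h9 with h10 | h10
        · exact h10
        · rwa [h10, add_zero] at h8
      have h13 := h5 hw
      rwa [LinearMap.mem_ker, hpr] at h13
    have h11 : (Pi.single b (1 : K) - Pi.single c 1 :
        Tensor K (fun i : Fin d => n i.castSucc)) ∈ LinearMap.ker φ := by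
      rw [LinearMap.mem_ker, hφa]
      simp [hba.symm, hca.symm, hbc, hbc.symm]
    rw [heq] at h11
    have h12 := hDc _ h11
    simp [hbc] at h12

end main

/-- **Theorem.** Let `K` be an infinite field (in particular `K = ℂ`), `n` a format of order `d + 1`,
`P` the product of the first `d` dimensions and `N` the last one.
(1) If `P ≤ N` then the maximal rank is `P`.
(2) If `N < P` then every tensor has rank at most `P - 1`.
(3) If `N = P - 1` then the maximal rank is `P - 1`.
(4) If `N = P - 2` and two of the first `d` dimensions are at least two then the maximal rank is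
`P - 1`. -/
theorem result (K : Type) [Field K] [Infinite K] (d : ℕ) (n : Fin (d + 1) → ℕ) :
    (∏ i : Fin d, n i.castSucc ≤ n (Fin.last d) →
      maxRank K n = ∏ i : Fin d, n i.castSucc) ∧
    (n (Fin.last d) < ∏ i : Fin d, n i.castSucc →
      (∀ T : Tensor K n, rk T ≤ (∏ i : Fin d, n i.castSucc) - 1) ∧
      maxRank K n ≤ (∏ i : Fin d, n i.castSucc) - 1) ∧
    (n (Fin.last d) + 1 = ∏ i : Fin d, n i.castSucc →
      maxRank K n = (∏ i : Fin d, n i.castSucc) - 1) ∧
    (n (Fin.last d) + 2 = ∏ i : Fin d, n i.castSucc →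
      (∃ p q : Fin d, p ≠ q ∧ 2 ≤ n p.castSucc ∧ 2 ≤ n q.castSucc) →
      maxRank K n = (∏ i : Fin d, n i.castSucc) - 1) := by
  refine ⟨full, ?_, ?_, ?_⟩
  · intro hN
    have h1 : ∀ T : Tensor K n, rk T ≤ (∏ i : Fin d, n i.castSucc) - 1 := by
      intro T
      have := rk_le_of_lt hN T
      omega
    refine ⟨h1, ?_⟩
    apply csSup_le (Set.range_nonempty _)
    rintro _ ⟨T, rfl⟩
    exact h1 T
  · intro hN
    rw [minus_one hN]
    omega
  · rintro hN ⟨p, q, hpq, hp, hq⟩
    rw [minus_two hN p q hpq hp hq]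
    omega

end Pool.Agent.Results.MP_098a67_ag.NearlyFullFormats
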